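import Pool.Agent.MWHP.StmtsP
import Pool.Agent.MWH.StmtsA

set_option autoImplicit false

/-!
# Block MWHP: row ABJ
-/

namespace Pool.Agent.MWHP.H59

open Pool.Agent.Helper14_MV Pool.Agent.Helper2_MV Pool.Agent.MVO Pool.Agent.MWL Pool.Agent.MWS
open Pool.Agent.MWA Pool.Agent.MWH

theorem bef_cons (a : ℕ) (l : List ℕ) (x y : ℕ) :
    Bef (a :: l) x y ↔ (a = y → x ∉ l) ∧ Bef l x y := by
  constructor
  · intro h
    refine ⟨?_, ?_⟩
    · rintro rfl
      exact h [] l rfl
    · intro P Q hl
      exact h (a :: P) Q (by rw [hl]; rfl)
  · rintro ⟨h1, h2⟩ P Q hl
    cases P with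
    | nil =>
      rw [List.nil_append, List.cons.injEq] at hl
      rw [← hl.2]
      exact h1 hl.1
    | cons p P =>
      rw [List.cons_append, List.cons.injEq] at hl
      exact h2 P Q hl.2

theorem bef_rep0 (Q : List ℕ) (c x y : ℕ) (hxy : x ≠ y) (m : ℕ) :
    Bef (c :: (List.replicate m c ++ Q)) x y ↔ Bef (c :: Q) x y := by
  induction m with
  | zero => rw [List.replicate_zero, List.nil_append]
  | succ m ih =>
    rw [List.replicate_succ, List.cons_append, bef_cons, ih, bef_cons]
    constructor
    · rintro ⟨_, h⟩
      exact h
    · rintro ⟨h3, h4⟩
      refine ⟨?_, h3, h4⟩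
      intro h
      have hx := h3 h
      subst h
      simp only [List.mem_cons, List.mem_append, not_or]
      exact ⟨hxy, fun h' => hxy (List.eq_of_mem_replicate h'), hx⟩

theorem bef_rep (P Q : List ℕ) (c x y : ℕ) (hxy : x ≠ y) (m : ℕ) :
    Bef (P ++ c :: (List.replicate m c ++ Q)) x y ↔ Bef (P ++ c :: Q) x y := by
  induction P with
  | nil => exact bef_rep0 Q c x y hxy m
  | cons p P ih =>
    rw [List.cons_append, List.cons_append, bef_cons, bef_cons, ih]
    have h1 : x ∈ P ++ c :: (List.replicate m c ++ Q) ↔ x ∈ P ++ c :: Q := by
      simp only [List.mem_append, List.mem_cons, List.mem_replicate]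
      tauto
    rw [h1]

theorem W_off {n : ℕ} {a b : ℕ → ℕ} {i j j' : ℕ} (s : Stt) (h : j' ≠ j) :
    MWH.W a b i s j' = MWH.W a (ad n b j) i s j' := by
  unfold MWH.W
  by_cases h1 : j' = i
  · subst h1
    rw [if_pos rfl, if_pos rfl]
    have h2 : ad n b j j' = b j' := by
      unfold ad
      rw [if_neg h, add_zero]
    rw [h2]
  · rw [if_neg h1, if_neg h1]
    have h2 : ad n b j j' = b j' := by
      unfold ad
      rw [if_neg h, add_zero]
    rw [h2]

theorem abj (hSAT : SatnStmt) (hNFE : NfeStmt) (hOKW : MWH.OkwStmt) : AbjStmt := by
  intro n β θ hβ hle k a b i hV j hjk hAb hj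
  have hd : ad n b j j = b j + 2 * n := by
    unfold ad
    rw [if_pos rfl]
  have hge : ∀ t, b t ≤ ad n b j t := by
    intro t
    unfold ad
    omega
  have hV' : Vd k a (ad n b j) i := by
    refine ⟨hV.ik, hV.ai, ?_, ?_, hV.da, ?_⟩
    · have h1 := hge i
      have h2 := hV.bi
      omega
    · intro t ht hti
      rcases hV.un t ht hti with h1 | h1
      · exact Or.inl h1
      · by_cases h2 : t = j
        · subst h2
          rcases hj with h3 | h3
          · exact absurd h3 hti
          · exact Or.inl h3
        · right
          unfold ad
          rw [if_neg h2, h1]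
    · refine hV.db.trans ?_
      unfold deg
      exact Finset.sum_le_sum fun t _ => hge t
  refine ⟨hV', ?_⟩
  intro s hs
  have hs' : Vs a (ad n b j) i s := by
    intro h
    rcases hs h with h1 | h1
    · exact Or.inl h1
    · exact Or.inr (h1.trans (hge i))
  obtain ⟨hO, hT, hC, hL, hx, hy⟩ := hOKW k a b i s hV hs
  obtain ⟨hO', hT', hC', hL', hx', hy'⟩ := hOKW k a (ad n b j) i s hV' hs'
  have hty : ty (MWH.W a b i s) 1 = b := by
    funext t
    exact (hC t).2
  have hNS : NS k 1 := by
    unfold NS
    omega
  by_cases hbj : b j = 0
  · -- the empty block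
    have hji : j ≠ i := by
      rintro rfl
      exact hV.bi hbj
    have haj : a j = 0 := hj.resolve_left hji
    have hB : MWH.W a b i s j = [] := by
      unfold MWH.W
      rw [if_neg hji, haj, hbj]
      rfl
    have h1 := hSAT n β θ hβ.toBasN hle k (MWH.W a b i s) hO j hjk 1 hNS
      (by rw [hty]; exact hV.db) (by rw [hty]; exact hAb) [] [] (by rw [hB]; rfl)
      (Or.inl (by rw [hB]; exact List.not_mem_nil))
    have h2 : asm k (Function.update (MWH.W a b i s) j ([] ++ (List.replicate (2 * n) 1 ++ []))) =
        asm k (MWH.W a (ad n b j) i s) := by
      apply asm_congr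
      intro t _
      by_cases h3 : t = j
      · subst h3
        rw [Function.update_self]
        unfold MWH.W
        rw [if_neg hji, haj, hd, hbj]
        simp
      · rw [Function.update_of_ne h3]
        exact W_off s h3
    rw [h2] at h1
    exact h1
  · have hmem : 1 ∈ MWH.W a b i s j := by
      rw [← List.count_pos_iff, (hC j).2]
      omega
    obtain ⟨P, Q, hPQ⟩ := List.append_of_mem hmem
    have h1 := hSAT n β θ hβ.toBasN hle k (MWH.W a b i s) hO j hjk 1 hNS
      (by rw [hty]; exact hV.db) (by rw [hty]; exact hAb) (P ++ [1]) Q
      (by rw [hPQ]; simp) (Or.inr ⟨P, rfl⟩)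
    have h2 : (P ++ [1]) ++ (List.replicate (2 * n) 1 ++ Q) = P ++ 1 :: (List.replicate (2 * n) 1 ++ Q) := by simp
    rw [h2] at h1
    have hcount : ∀ t c, (Function.update (MWH.W a b i s) j (P ++ 1 :: (List.replicate (2 * n) 1 ++ Q)) t).count c =
        (MWH.W a (ad n b j) i s t).count c := by
      intro t c
      by_cases h3 : t = j
      · subst h3
        rw [Function.update_self]
        have h4 : (P ++ 1 :: (List.replicate (2 * n) 1 ++ Q)).count c =
            (MWH.W a b i s t).count c + (if c = 1 then 2 * n else 0) := by
          rw [hPQ]
          simp only [List.count_append, List.count_cons, List.count_replicate]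
          by_cases h5 : c = 1
          · subst h5
            simp
            omega
          · have h6 : ¬ (1 = c) := fun h => h5 h.symm
            simp [h5, h6]
        rw [h4]
        by_cases h5 : c = 0
        · subst h5
          rw [(hC t).1, (hC' t).1]
          simp
        · by_cases h6 : c = 1
          · subst h6
            rw [(hC t).2, (hC' t).2, hd]
            simp
          · have h7 : c ∉ MWH.W a b i s t := by
              intro h
              rcases hL t c h with h | h
              · exact h5 h
              · exact h6 h
            have h8 : c ∉ MWH.W a (ad n b t) i s t := by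
              intro h
              rcases hL' t c h with h | h
              · exact h5 h
              · exact h6 h
            rw [List.count_eq_zero_of_not_mem h7, List.count_eq_zero_of_not_mem h8, if_neg h6]
      · rw [Function.update_of_ne h3, W_off s h3]
    have hmemi : ∀ t c, c ∈ Function.update (MWH.W a b i s) j (P ++ 1 :: (List.replicate (2 * n) 1 ++ Q)) t ↔
        c ∈ MWH.W a (ad n b j) i s t := by
      intro t c
      rw [← List.count_pos_iff, hcount, List.count_pos_iff]
    have hOB : OkB k (Function.update (MWH.W a b i s) j (P ++ 1 :: (List.replicate (2 * n) 1 ++ Q))) := by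
      refine ⟨?_, ?_⟩
      · intro t ht c hc
        exact hO'.ok t ht c ((hmemi t c).1 hc)
      · intro t ht c hc
        have h3 := hO'.ml t ht c ((hmemi t c).1 hc)
        have h4 : (fun t => (Function.update (MWH.W a b i s) j (P ++ 1 :: (List.replicate (2 * n) 1 ++ Q)) t).count c) =
            fun t => (MWH.W a (ad n b j) i s t).count c := by
          funext t
          exact hcount t c
        rw [h4]
        exact h3
    have h3 : RR β (asm k (Function.update (MWH.W a b i s) j (P ++ 1 :: (List.replicate (2 * n) 1 ++ Q))))
        (asm k (MWH.W a (ad n b j) i s)) := by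
      refine hNFE n β hβ k _ _ hOB hO' ?_ ?_
      · intro c _ t _
        left
        exact hcount t c
      · intro t htk x y hxy hxt hyt hun
        by_cases h4 : t = j
        · subst h4
          rw [Function.update_self]
          rw [bef_rep P Q 1 x y hxy, ← hPQ]
          -- both letters are in the block, so `t = i`
          have h5 := (hmemi t x).1 hxt
          have h6 := (hmemi t y).1 hyt
          have h7 := hL' t x h5
          have h8 := hL' t y h6
          have hti : t = i := by
            by_contra hti
            have h01 : a t ≠ 0 ∧ ad n b t t ≠ 0 := by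
              rcases h7 with rfl | rfl
              · rcases h8 with rfl | rfl
                · exact absurd rfl hxy
                · constructor
                  · rw [← (hC' t).1]
                    exact (List.count_pos_iff.2 h5).ne'
                  · rw [← (hC' t).2]
                    exact (List.count_pos_iff.2 h6).ne'
              · rcases h8 with rfl | rfl
                · constructor
                  · rw [← (hC' t).1]
                    exact (List.count_pos_iff.2 h6).ne'
                  · rw [← (hC' t).2]
                    exact (List.count_pos_iff.2 h5).ne'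
                · exact absurd rfl hxy
            rcases hV'.un t htk hti with h | h
            · exact h01.1 h
            · exact h01.2 h
          subst hti
          rcases h7 with rfl | rfl
          · rcases h8 with rfl | rfl
            · exact absurd rfl hxy
            · rw [hx, hx']
          · rcases h8 with rfl | rfl
            · rw [hy, hy']
            · exact absurd rfl hxy
        · rw [Function.update_of_ne h4, W_off s h4]
    exact θ.trans h1 (hle _ _ h3)

end Pool.Agent.MWHP.H59
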