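import Pool.Agent.MWHP.StmtsP
import Pool.Agent.MWH.StmtsA
import Pool.Agent.Helper59_MWHP.ABJ

set_option autoImplicit false

/-!
# Block MWHP: row ABI
-/

namespace Pool.Agent.MWHP.H59

open Pool.Agent.Helper14_MV Pool.Agent.Helper2_MV Pool.Agent.MVO Pool.Agent.MWL Pool.Agent.MWS
open Pool.Agent.MWA Pool.Agent.MWH

theorem W_off' {n : ℕ} {a b : ℕ → ℕ} {i j j' : ℕ} (s : Stt) (h : j' ≠ j) :
    MWH.W a b i s j' = MWH.W (ad n a j) b i s j' := by
  unfold MWH.W
  by_cases h1 : j' = i
  · subst h1
    rw [if_pos rfl, if_pos rfl]
    have h2 : ad n a j j' = a j' := by
      unfold ad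
      rw [if_neg h, add_zero]
    rw [h2]
  · rw [if_neg h1, if_neg h1]
    have h2 : ad n a j j' = a j' := by
      unfold ad
      rw [if_neg h, add_zero]
    rw [h2]

theorem abi (hSAT : SatnStmt) (hNFE : NfeStmt) (hOKW : MWH.OkwStmt) : AbiStmt := by
  intro n β θ hβ hle k a b i hV j hjk hAb hj
  have hd : ad n a j j = a j + 2 * n := by
    unfold ad
    rw [if_pos rfl]
  have hge : ∀ t, a t ≤ ad n a j t := by
    intro t
    unfold ad
    omega
  have hV' : Vd k (ad n a j) b i := by
    refine ⟨hV.ik, ?_, hV.bi, ?_, ?_, hV.db⟩
    · have h1 := hge i
      have h2 := hV.ai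
      omega
    · intro t ht hti
      rcases hV.un t ht hti with h1 | h1
      · by_cases h2 : t = j
        · subst h2
          rcases hj with h3 | h3
          · exact absurd h3 hti
          · exact Or.inr h3
        · left
          unfold ad
          rw [if_neg h2, h1]
      · exact Or.inr h1
    · refine hV.da.trans ?_
      unfold deg
      exact Finset.sum_le_sum fun t _ => hge t
  refine ⟨hV', ?_⟩
  intro s hs
  have hs' : Vs (ad n a j) b i s := by
    intro h
    rcases hs h with h1 | h1
    · exact Or.inl (h1.trans (hge i))
    · exact Or.inr h1
  obtain ⟨hO, hT, hC, hL, hx, hy⟩ := hOKW k a b i s hV hs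
  obtain ⟨hO', hT', hC', hL', hx', hy'⟩ := hOKW k (ad n a j) b i s hV' hs'
  have hty : ty (MWH.W a b i s) 0 = a := by
    funext t
    exact (hC t).1
  have hNS : NS k 0 := by
    unfold NS
    omega
  by_cases haj : a j = 0
  · -- the empty block
    have hji : j ≠ i := by
      rintro rfl
      exact hV.ai haj
    have hbj : b j = 0 := hj.resolve_left hji
    have hB : MWH.W a b i s j = [] := by
      unfold MWH.W
      rw [if_neg hji, haj, hbj]
      rfl
    have h1 := hSAT n β θ hβ.toBasN hle k (MWH.W a b i s) hO j hjk 0 hNS
      (by rw [hty]; exact hV.da) (by rw [hty]; exact hAb) [] [] (by rw [hB]; rfl)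
      (Or.inl (by rw [hB]; exact List.not_mem_nil))
    have h2 : asm k (Function.update (MWH.W a b i s) j ([] ++ (List.replicate (2 * n) 0 ++ []))) =
        asm k (MWH.W (ad n a j) b i s) := by
      apply asm_congr
      intro t _
      by_cases h3 : t = j
      · subst h3
        rw [Function.update_self]
        unfold MWH.W
        rw [if_neg hji, hbj, hd, haj]
        simp
      · rw [Function.update_of_ne h3]
        exact W_off' s h3
    rw [h2] at h1
    exact h1
  · have hmem : 0 ∈ MWH.W a b i s j := by
      rw [← List.count_pos_iff, (hC j).1]
      omega
    obtain ⟨P, Q, hPQ⟩ := List.append_of_mem hmem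
    have h1 := hSAT n β θ hβ.toBasN hle k (MWH.W a b i s) hO j hjk 0 hNS
      (by rw [hty]; exact hV.da) (by rw [hty]; exact hAb) (P ++ [0]) Q
      (by rw [hPQ]; simp) (Or.inr ⟨P, rfl⟩)
    have h2 : (P ++ [0]) ++ (List.replicate (2 * n) 0 ++ Q) = P ++ 0 :: (List.replicate (2 * n) 0 ++ Q) := by simp
    rw [h2] at h1
    have hcount : ∀ t c, (Function.update (MWH.W a b i s) j (P ++ 0 :: (List.replicate (2 * n) 0 ++ Q)) t).count c =
        (MWH.W (ad n a j) b i s t).count c := by
      intro t c
      by_cases h3 : t = j
      · subst h3
        rw [Function.update_self]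
        have h4 : (P ++ 0 :: (List.replicate (2 * n) 0 ++ Q)).count c =
            (MWH.W a b i s t).count c + (if c = 0 then 2 * n else 0) := by
          rw [hPQ]
          simp only [List.count_append, List.count_cons, List.count_replicate]
          by_cases h5 : c = 0
          · subst h5
            simp
            omega
          · have h6 : ¬ (0 = c) := fun h => h5 h.symm
            simp [h5, h6]
        rw [h4]
        by_cases h5 : c = 1
        · subst h5
          rw [(hC t).2, (hC' t).2]
          simp
        · by_cases h6 : c = 0
          · subst h6
            rw [(hC t).1, (hC' t).1, hd]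
            simp
          · have h7 : c ∉ MWH.W a b i s t := by
              intro h
              rcases hL t c h with h | h
              · exact h6 h
              · exact h5 h
            have h8 : c ∉ MWH.W (ad n a t) b i s t := by
              intro h
              rcases hL' t c h with h | h
              · exact h6 h
              · exact h5 h
            rw [List.count_eq_zero_of_not_mem h7, List.count_eq_zero_of_not_mem h8, if_neg h6]
      · rw [Function.update_of_ne h3, W_off' s h3]
    have hmemi : ∀ t c, c ∈ Function.update (MWH.W a b i s) j (P ++ 0 :: (List.replicate (2 * n) 0 ++ Q)) t ↔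
        c ∈ MWH.W (ad n a j) b i s t := by
      intro t c
      rw [← List.count_pos_iff, hcount, List.count_pos_iff]
    have hOB : OkB k (Function.update (MWH.W a b i s) j (P ++ 0 :: (List.replicate (2 * n) 0 ++ Q))) := by
      refine ⟨?_, ?_⟩
      · intro t ht c hc
        exact hO'.ok t ht c ((hmemi t c).1 hc)
      · intro t ht c hc
        have h3 := hO'.ml t ht c ((hmemi t c).1 hc)
        have h4 : (fun t => (Function.update (MWH.W a b i s) j (P ++ 0 :: (List.replicate (2 * n) 0 ++ Q)) t).count c) =
            fun t => (MWH.W (ad n a j) b i s t).count c := by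
          funext t
          exact hcount t c
        rw [h4]
        exact h3
    have h3 : RR β (asm k (Function.update (MWH.W a b i s) j (P ++ 0 :: (List.replicate (2 * n) 0 ++ Q))))
        (asm k (MWH.W (ad n a j) b i s)) := by
      refine hNFE n β hβ k _ _ hOB hO' ?_ ?_
      · intro c _ t _
        left
        exact hcount t c
      · intro t htk x y hxy hxt hyt hun
        by_cases h4 : t = j
        · subst h4
          rw [Function.update_self]
          rw [bef_rep P Q 0 x y hxy, ← hPQ]
          have h5 := (hmemi t x).1 hxt
          have h6 := (hmemi t y).1 hyt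
          have h7 := hL' t x h5
          have h8 := hL' t y h6
          have hti : t = i := by
            by_contra hti
            have h01 : ad n a t t ≠ 0 ∧ b t ≠ 0 := by
              rcases h7 with rfl | rfl
              · rcases h8 with rfl | rfl
                · exact absurd rfl hxy
                · constructor
                  · rw [← (hC' t).1]
                    exact (List.count_pos_iff.2 h5).ne'
                  · rw [← (hC' t).2]
                    exact (List.count_pos_iff.2 h6).ne'
              · rcases h8 with rfl | rfl
                · constructor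
                  · rw [← (hC' t).1]
                    exact (List.count_pos_iff.2 h6).ne'
                  · rw [← (hC' t).2]
                    exact (List.count_pos_iff.2 h5).ne'
                · exact absurd rfl hxy
            rcases hV'.un t htk hti with h | h
            · exact h01.1 h
            · exact h01.2 h
          subst hti
          rcases h7 with rfl | rfl
          · rcases h8 with rfl | rfl
            · exact absurd rfl hxy
            · rw [hx, hx']
          · rcases h8 with rfl | rfl
            · rw [hy, hy']
            · exact absurd rfl hxy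
        · rw [Function.update_of_ne h4, W_off' s h4]
    exact θ.trans h1 (hle _ _ h3)

end Pool.Agent.MWHP.H59
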